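import Mathlib

set_option autoImplicit false

/-!
# Krull-Akizuki length bound (by helper348)
-/

namespace Pool.Agent.H413.BR

namespace KAaux

theorem coh_chain {D : Type*} [PartialOrder D] (n : ℕ) (J : ℕ → D)
    (h : ∀ i < n, J i < J (i + 1)) : Order.coheight (J n) + n ≤ Order.coheight (J 0) := by
  induction n with
  | zero => simp
  | succ n ih =>
    have h1 := ih (fun i hi => h i (by omega))
    have h2 := Order.coheight_add_one_le (h n (by omega))
    refine le_trans ?_ h1
    have h3 : Order.coheight (J (n + 1)) + ((n + 1 : ℕ) : ℕ∞) =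
        (Order.coheight (J (n + 1)) + 1) + (n : ℕ∞) := by
      push_cast
      ring
    rw [h3]
    exact add_le_add_left h2 _

/-- elements `d` with `d / c ∈ S` -/
def idl {D K : Type} [CommRing D] [Field K] [Algebra D K] (c : D) (S : Submodule D K) : Ideal D :=
  Submodule.comap (Algebra.linearMap D K) (Submodule.map (LinearMap.lsmul D K c) S)

theorem mem_idl {D K : Type} [CommRing D] [Field K] [Algebra D K] {c : D} {S : Submodule D K}
    {d : D} : d ∈ idl c S ↔ ∃ m ∈ S, algebraMap D K c * m = algebraMap D K d := by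
  unfold idl
  simp only [Submodule.mem_comap, Submodule.mem_map, Algebra.linearMap_apply,
    LinearMap.lsmul_apply, Algebra.smul_def]

end KAaux

open KAaux Pointwise in
theorem h413_krull_akizuki {D K : Type} [CommRing D] [IsDomain D] [IsNoetherianRing D]
    [Ring.DimensionLEOne D] [Field K] [Algebra D K] (hinj : Function.Injective (algebraMap D K))
    {x : D} (hx : x ≠ 0) : ∃ L : ℕ, ∀ N : Subring K,
      (∀ a : D, algebraMap D K a ∈ N) →
      (∀ y ∈ N, ∃ a b : D, b ≠ 0 ∧ y * algebraMap D K b = algebraMap D K a) →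
      ∀ (n : ℕ) (I : ℕ → Submodule D K), (∀ i < n, I i < I (i + 1)) → (∀ y ∈ I n, y ∈ N) →
        (∀ y ∈ N, algebraMap D K x * y ∈ I 0) → n ≤ L := by
  have hfin : ∀ y : D, y ≠ 0 → Module.length D (D ⧸ Ideal.span {y}) ≠ ⊤ := by
    intro y hy
    rw [Module.length_ne_top_iff]
    exact isFiniteLength_quotient_span_singleton D (mem_nonZeroDivisors_of_ne_zero hy)
  refine ⟨(Module.length D (D ⧸ Ideal.span {x})).toNat, ?_⟩
  intro N hDN hfr n I hI hIn hxI
  have hmono : ∀ i, i ≤ n → ∀ k, k ≤ i → I k ≤ I i := by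
    intro i
    induction i with
    | zero =>
      intro _ k hk
      have : k = 0 := by omega
      rw [this]
    | succ i ih =>
      intro hi k hk
      rcases Nat.lt_or_ge k (i + 1) with h | h
      · exact (ih (by omega) k (by omega)).trans (hI i (by omega)).le
      · have : k = i + 1 := by omega
        rw [this]
  -- choose the elements
  have hch : ∀ i : ℕ, ∃ (y : K) (b : D), b ≠ 0 ∧ (i < n → y ∈ I (i + 1) ∧ y ∉ I i ∧
      ∃ a : D, y * algebraMap D K b = algebraMap D K a) := by
    intro i
    by_cases hi : i < n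
    · obtain ⟨y, hy1, hy2⟩ := Set.exists_of_ssubset (hI i hi)
      have hyN : y ∈ N := hIn y (hmono n le_rfl (i + 1) (by omega) hy1)
      obtain ⟨a, b, hb, hab⟩ := hfr y hyN
      exact ⟨y, b, hb, fun _ => ⟨hy1, hy2, a, hab⟩⟩
    · exact ⟨0, 1, one_ne_zero, fun h => absurd h hi⟩
  choose y b hb hy using hch
  set c : D := ∏ i ∈ Finset.range n, b i with hc
  have hc0 : c ≠ 0 := Finset.prod_ne_zero_iff.2 (fun i _ => hb i)
  have hcK : algebraMap D K c ≠ 0 := by
    intro h
    apply hc0
    apply hinj
    rw [h, map_zero]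
  -- the ideals
  let NS : Submodule D K :=
    { carrier := {z : K | z ∈ N}
      add_mem' := fun {a b} ha hb => N.add_mem ha hb
      zero_mem' := N.zero_mem
      smul_mem' := fun a z hz => by
        show a • z ∈ N
        rw [Algebra.smul_def]
        exact N.mul_mem (hDN a) hz }
  have hNS : ∀ z, z ∈ NS ↔ z ∈ N := fun z => Iff.rfl
  have hlt : ∀ i < n, idl c (I i) < idl c (I (i + 1)) := by
    intro i hi
    refine lt_of_le_of_ne ?_ ?_
    · intro d hd
      rw [mem_idl] at hd ⊢
      obtain ⟨m, hm, h⟩ := hd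
      exact ⟨m, (hI i hi).le hm, h⟩
    · intro heq
      obtain ⟨hy1, hy2, a, ha⟩ := hy i hi
      obtain ⟨e, he⟩ : b i ∣ c := Finset.dvd_prod_of_mem b (Finset.mem_range.2 hi)
      have h1 : algebraMap D K c * y i = algebraMap D K (e * a) := by
        rw [he, map_mul, map_mul, ← ha]
        ring
      have h2 : e * a ∈ idl c (I (i + 1)) := mem_idl.2 ⟨y i, hy1, h1⟩
      rw [← heq, mem_idl] at h2
      obtain ⟨m, hm, h3⟩ := h2
      rw [← h1] at h3
      have h4 : m = y i := mul_left_cancel₀ hcK h3
      exact hy2 (h4 ▸ hm)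
  have hle1 : idl c (I n) ≤ idl c NS := by
    intro d hd
    rw [mem_idl] at hd ⊢
    obtain ⟨m, hm, h⟩ := hd
    exact ⟨m, hIn m hm, h⟩
  have hle2 : x • idl c NS ≤ idl c (I 0) := by
    intro d hd
    obtain ⟨e, he, rfl⟩ := (Submodule.mem_smul_pointwise_iff_exists _ _ _).1 hd
    rw [mem_idl] at he ⊢
    obtain ⟨m, hm, h⟩ := he
    refine ⟨algebraMap D K x * m, hxI m hm, ?_⟩
    rw [smul_eq_mul, map_mul, ← h]
    ring
  have hcmem : c ∈ idl c NS := mem_idl.2 ⟨1, N.one_mem, by rw [mul_one]⟩
  have hJfin : Order.coheight (idl c NS) ≠ ⊤ := by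
    rw [← Module.length_quotient (R := D) (M := D)]
    have h1 : Ideal.span {c} ≤ idl c NS := by
      rw [Ideal.span_singleton_le_iff_mem]
      exact hcmem
    have h2 : Module.length D (D ⧸ idl c NS) ≤ Module.length D (D ⧸ Ideal.span {c}) :=
      Module.length_le_of_surjective (Submodule.factor h1) (Submodule.factor_surjective h1)
    exact ne_top_of_le_ne_top (hfin c hc0) h2
  have hadd : Order.coheight (x • idl c NS) =
      Order.coheight (idl c NS) + Module.length D (D ⧸ Ideal.span {x}) := by
    rw [← Module.length_quotient (R := D) (M := D), ← Module.length_quotient (R := D) (M := D)]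
    exact Module.length_eq_add_of_exact (Ideal.mulQuot x (idl c NS))
      (Ideal.quotOfMul x (idl c NS))
      (Ideal.mulQuot_injective (idl c NS) (mem_nonZeroDivisors_of_ne_zero hx))
      (Ideal.quotOfMul_surjective (idl c NS)) (Ideal.exact_mulQuot_quotOfMul (idl c NS))
  have h1 := coh_chain n (fun i => idl c (I i)) hlt
  have h2 : Order.coheight (idl c (I 0)) ≤ Order.coheight (x • idl c NS) :=
    Order.coheight_anti hle2
  have h3 : Order.coheight (idl c NS) ≤ Order.coheight (idl c (I n)) := Order.coheight_anti hle1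
  have h4 : Order.coheight (idl c NS) + (n : ℕ∞) ≤
      Order.coheight (idl c NS) + Module.length D (D ⧸ Ideal.span {x}) := by
    rw [← hadd]
    exact (add_le_add_left h3 _).trans (h1.trans h2)
  have h5 : (n : ℕ∞) ≤ Module.length D (D ⧸ Ideal.span {x}) :=
    (WithTop.add_le_add_iff_left hJfin).1 h4
  rw [← ENat.natCast_toNat (hfin x hx)] at h5
  exact_mod_cast h5

end Pool.Agent.H413.BR
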